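import Pool.Agent.H36.IN.Hi

/-!
Project MG, infinite case INF (MP_78d38b_nt): the group theory of a layer (helper36, no row; statements of helper76).
-/

set_option autoImplicit false
set_option linter.unusedSectionVars false
open scoped Classical

namespace H76IN

/-- The high type. -/
def hiS {G : Type*} [Group G] (D : Subgroup G) (k : ℕ) : Set G :=
  {g | g ∈ D ∧ ∀ x ∈ D, g ^ 2 ^ k ≠ (x ^ 2 ^ k) ^ 2}

section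

variable {G G₁ : Type*} [Group G] [Group G₁] {D T : Subgroup G} {r : G →* G₁} {k : ℕ}

/-- The data of a layer. -/
structure LD {G G₁ : Type*} [Group G] [Group G₁] (D : Subgroup G) (D₁ : Subgroup G₁) (r : G →* G₁)
    (k : ℕ) : Prop where
  p2 : IsPGroup 2 G
  k1 : 1 ≤ k
  comm : ∀ x ∈ D, ∀ y ∈ D, x * y = y * x
  cyc : ∃ c ∈ D, ∀ y ∈ D, ∃ i : ℕ, y ^ 2 ^ k = (c ^ 2 ^ k) ^ i
  map : D.map r = D₁
  ker : ∀ z, r z = 1 → ∃ y ∈ D, y ^ 2 ^ k = z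
  big : ∃ c ∈ D₁, (c ^ 2 ^ k) ^ 2 ^ (k + 1) ≠ 1

variable {D₁ : Subgroup G₁}

/-- cyclic quotient -/
def CQ {G : Type*} [Group G] (D T : Subgroup G) : Prop :=
  ∃ g ∈ D, ∀ h ∈ D, ∃ i : ℕ, ∃ c ∈ T, h = g ^ i * c

/-! The subgroup `D₁` as a group. -/

theorem LD.pD (H : LD D D₁ r k) : IsPGroup 2 D₁ := by
  rintro ⟨x, hx⟩
  have hx' := hx
  rw [← H.map] at hx'
  obtain ⟨d, -, rfl⟩ := hx'
  obtain ⟨n, hn⟩ := H.p2 d
  refine ⟨n, Subtype.ext ?_⟩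
  have h1 : r d ^ 2 ^ n = 1 := by rw [← map_pow, hn, map_one]
  exact h1

theorem LD.commD (H : LD D D₁ r k) : ∀ x ∈ (⊤ : Subgroup D₁), ∀ y ∈ (⊤ : Subgroup D₁), x * y = y * x := by
  rintro ⟨x, hx⟩ - ⟨y, hy⟩ -
  have hx' := hx
  have hy' := hy
  rw [← H.map] at hx' hy'
  obtain ⟨a, ha, rfl⟩ := hx'
  obtain ⟨b, hb, rfl⟩ := hy'
  apply Subtype.ext
  have h1 : r a * r b = r b * r a := by rw [← map_mul, ← map_mul, H.comm a ha b hb]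
  exact h1

theorem LD.cycD (H : LD D D₁ r k) :
    ∃ c ∈ (⊤ : Subgroup D₁), ∀ y ∈ (⊤ : Subgroup D₁), ∃ i : ℕ, y ^ 2 ^ k = (c ^ 2 ^ k) ^ i := by
  obtain ⟨c, hc, hgen⟩ := H.cyc
  have hc1 : r c ∈ D₁ := by
    rw [← H.map]
    exact ⟨c, hc, rfl⟩
  refine ⟨⟨r c, hc1⟩, Subgroup.mem_top _, ?_⟩
  rintro ⟨y, hy⟩ -
  have hy' := hy
  rw [← H.map] at hy'
  obtain ⟨b, hb, rfl⟩ := hy'
  obtain ⟨i, hi⟩ := hgen b hb
  refine ⟨i, Subtype.ext ?_⟩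
  have h1 := congrArg r hi
  rw [map_pow, map_pow, map_pow] at h1
  exact h1

theorem LD.bigD (H : LD D D₁ r k) : ∃ c ∈ (⊤ : Subgroup D₁), c ^ 2 ^ (2 * k + 1) ≠ 1 := by
  obtain ⟨c, hc, hne⟩ := H.big
  refine ⟨⟨c, hc⟩, Subgroup.mem_top _, fun h => hne ?_⟩
  have h1 : c ^ 2 ^ (2 * k + 1) = 1 := congrArg Subtype.val h
  rw [← pow_mul, ← pow_add]
  have h2 : k + (k + 1) = 2 * k + 1 := by ring
  rw [h2]
  exact h1

theorem cqD {T₁ : Subgroup G₁} (h : CQ D₁ T₁) :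
    ∃ g ∈ (⊤ : Subgroup D₁), ∀ h ∈ (⊤ : Subgroup D₁), ∃ i : ℕ, ∃ c ∈ T₁.comap D₁.subtype,
      h = g ^ i * c := by
  obtain ⟨g, hg, hgen⟩ := h
  refine ⟨⟨g, hg⟩, Subgroup.mem_top _, ?_⟩
  rintro ⟨h, hh⟩ -
  obtain ⟨i, c, hc, he⟩ := hgen h hh
  have hcD : c ∈ D₁ := by
    have h3 := D₁.mul_mem (D₁.inv_mem (D₁.pow_mem hg i)) hh
    rwa [he, inv_mul_cancel_left] at h3
  exact ⟨i, ⟨c, hcD⟩, hc, Subtype.ext he⟩

theorem clD {T₁ : Subgroup G₁} {x : D₁} :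
    x ∈ H36MG.clS (⊤ : Subgroup D₁) (T₁.comap D₁.subtype) ↔ (x : G₁) ∈ H36MG.clS D₁ T₁ := by
  constructor
  · rintro ⟨-, h2, h3⟩
    refine ⟨x.2, h2, fun h' hh' => ?_⟩
    obtain ⟨i, hi⟩ := h3 ⟨h', hh'⟩ (Subgroup.mem_top _)
    exact ⟨i, hi⟩
  · rintro ⟨-, h2, h3⟩
    refine ⟨Subgroup.mem_top _, h2, fun h' _ => ?_⟩
    obtain ⟨i, hi⟩ := h3 h' h'.2
    exact ⟨i, hi⟩

theorem hiD {x : D₁} : x ∈ H36IN.hiS (⊤ : Subgroup D₁) k ↔ (x : G₁) ∈ hiS D₁ k := by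
  constructor
  · rintro ⟨-, h2⟩
    refine ⟨x.2, fun y hy he => h2 ⟨y, hy⟩ (Subgroup.mem_top _) (Subtype.ext he)⟩
  · rintro ⟨-, h2⟩
    exact ⟨Subgroup.mem_top _, fun y _ he => h2 y y.2 (congrArg Subtype.val he)⟩

theorem g1 (H : LD D D₁ r k) (hT : CQ D T) {h : G} (_hh : h ∈ D) :
    h ∈ H36MG.clS D T ↔ r h ∈ r '' H36MG.clS D T :=
  H36IN.cl_fib H.p2 H.comm H.k1 H.ker hT

theorem g2 (H : LD D D₁ r k) (hT : CQ D T) : r '' H36MG.clS D T = ∅ ↔ D ≤ T := by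
  rw [Set.image_eq_empty]
  constructor
  · intro h
    by_contra h1
    obtain ⟨x, hx⟩ := H36MG.cl_nonempty H.comm hT h1
    rw [h] at hx
    exact hx
  · intro h
    exact H36MG.cl_empty h

theorem LD.big1 (H : LD D D₁ r k) : ∃ y ∈ D.map r, y ^ 2 ^ k ≠ 1 := by
  obtain ⟨c, hc, hne⟩ := H.big
  rw [H.map]
  refine ⟨c, hc, fun h => hne ?_⟩
  rw [h, one_pow]

theorem g3 (H : LD D D₁ r k) (hT : CQ D T) (hi : ∃ y ∈ D, y ^ 2 ^ k ∉ T) :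
    r '' H36MG.clS D T = hiS D₁ k := by
  rw [H36IN.map_high H.p2 H.comm H.cyc H.ker H.big1 hT hi, H.map]
  rfl

theorem g4 (H : LD D D₁ r k) (hT : CQ D T) (lo : ∀ y ∈ D, y ^ 2 ^ k ∈ T) :
    ∃ T₁ : Subgroup G₁, (∀ h ∈ D, h ∈ T ↔ r h ∈ T₁) ∧ CQ D₁ T₁ ∧ (∀ y ∈ D₁, y ^ 2 ^ k ∈ T₁) ∧
      r '' H36MG.clS D T = H36MG.clS D₁ T₁ := by
  refine ⟨(T ⊓ D).map r, fun h hh => H36IN.low_mem H.ker lo hh, ?_, ?_, ?_⟩
  · have h1 := H36IN.low_cyc r hT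
    rw [H.map] at h1
    exact h1
  · intro y hy
    rw [← H.map] at hy
    obtain ⟨d, hd, rfl⟩ := hy
    exact ⟨d ^ 2 ^ k, ⟨lo d hd, D.pow_mem hd _⟩, map_pow r d _⟩
  · rw [H36IN.map_low H.ker lo, H.map]

theorem loD {T₁ : Subgroup G₁} (lo : ∀ y ∈ D₁, y ^ 2 ^ k ∈ T₁) :
    ∀ y ∈ (⊤ : Subgroup D₁), y ^ 2 ^ k ∈ T₁.comap D₁.subtype := fun y _ => lo y y.2

theorem g5 (H : LD D D₁ r k) {δ₀ : Set G₁} (hδ₀ : δ₀.Nonempty)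
    (hδ : (∃ T₀ : Subgroup G₁, CQ D₁ T₀ ∧ (∀ y ∈ D₁, y ^ 2 ^ k ∈ T₀) ∧ δ₀ = H36MG.clS D₁ T₀) ∨
      δ₀ = hiS D₁ k) {T₁ : Subgroup G₁} (hT₁ : CQ D₁ T₁) (lo : ∀ y ∈ D₁, y ^ 2 ^ k ∈ T₁)
    (hne : H36MG.clS D₁ T₁ ≠ δ₀) : ∃ g ∈ δ₀, g ∈ T₁ ∧ g ^ 2 ^ (k + 1) ≠ 1 := by
  rcases hδ with ⟨T₀, hT₀, lo₀, rfl⟩ | rfl
  · obtain ⟨g, hg, hg1, hg2⟩ := H36IN.low_sep1 H.pD H.commD H.bigD (cqD hT₀) (cqD hT₁) (loD lo₀)
      (loD lo) (by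
        obtain ⟨x, hx⟩ := hδ₀
        exact ⟨⟨x, hx.1⟩, clD.2 hx⟩) (by
        intro h
        apply hne
        ext x
        constructor
        · intro hx
          have h1 := (clD (x := ⟨x, hx.1⟩)).2 hx
          rw [h] at h1
          exact clD.1 h1
        · intro hx
          have h1 := (clD (x := ⟨x, hx.1⟩)).2 hx
          rw [← h] at h1
          exact clD.1 h1)
    exact ⟨g, clD.1 hg, hg1, fun h => hg2 (Subtype.ext h)⟩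
  · obtain ⟨g, hg, hg1, hg2⟩ := H36IN.hi_sep (k := k) H.pD H.commD H.cycD H.bigD (cqD hT₁) (by
        intro h
        apply hne
        ext x
        constructor
        · intro hx
          have h1 := (clD (x := ⟨x, hx.1⟩)).2 hx
          rw [h] at h1
          exact hiD.1 h1
        · intro hx
          have h1 := (hiD (x := ⟨x, hx.1⟩)).2 hx
          rw [← h] at h1
          exact clD.1 h1)
    exact ⟨g, hiD.1 hg, hg1, fun h => hg2 (Subtype.ext h)⟩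

theorem g5' (H : LD D D₁ r k) {δ₀ : Set G₁} (hδ₀ : δ₀.Nonempty)
    (hδ : (∃ T₀ : Subgroup G₁, CQ D₁ T₀ ∧ (∀ y ∈ D₁, y ^ 2 ^ k ∈ T₀) ∧ δ₀ = H36MG.clS D₁ T₀) ∨
      δ₀ = hiS D₁ k) : ∃ g ∈ δ₀, g ^ 2 ^ (k + 1) ≠ 1 := by
  obtain ⟨x, hx⟩ := hδ₀
  rcases hδ with ⟨T₀, hT₀, lo₀, rfl⟩ | rfl
  · have hx1 := (clD (x := ⟨x, hx.1⟩)).2 hx
    obtain ⟨y, hy, hyn⟩ := H36IN.exists_big (k := k) H.commD H.bigD hx1.1
    refine ⟨_, clD.1 (H36IN.cl_mulT H.pD H.commD (cqD hT₀) hx1 (Subgroup.pow_mem _ hy (2 ^ k))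
      (loD lo₀ y hy)), fun h => hyn (Subtype.ext h)⟩
  · have hx1 := (hiD (x := ⟨x, hx.1⟩)).2 hx
    have h1 := H36IN.hi_big H.cycD H.pD H.bigD hx1
    exact ⟨x, hx, fun h => h1 (Subtype.ext h)⟩

theorem g6 (H : LD D D₁ r k) {T₁ : Subgroup G₁} (lo : ∀ y ∈ D₁, y ^ 2 ^ k ∈ T₁)
    (hne : ¬ D₁ ≤ T₁) : ∃ g ∈ D₁, g ∉ T₁ ∧ g ^ 2 ∈ T₁ ∧ g ^ 2 ^ (k + 1) ≠ 1 := by
  obtain ⟨x, hx, hxT⟩ := SetLike.not_le_iff_exists.1 hne
  obtain ⟨j, hj1, hj2⟩ := H36MG.exists_pow_two H.pD (T₁.comap D₁.subtype) (x := ⟨x, hx⟩) hxT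
  obtain ⟨g, hg⟩ : ∃ g, g = (⟨x, hx⟩ : D₁) ^ 2 ^ j := ⟨_, rfl⟩
  rw [← hg] at hj1 hj2
  obtain ⟨y, hy, hyn⟩ := H36IN.exists_big (k := k) H.commD H.bigD (g := g) (Subgroup.mem_top _)
  refine ⟨((g * y ^ 2 ^ k : D₁) : G₁), (g * y ^ 2 ^ k).2, fun h1 => hj1 ?_, ?_,
    fun h => hyn (Subtype.ext h)⟩
  · have h2 := (T₁.comap D₁.subtype).mul_mem (x := g * y ^ 2 ^ k) h1
      ((T₁.comap D₁.subtype).inv_mem (loD lo y hy))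
    rwa [mul_inv_cancel_right] at h2
  · have c1 : Commute g (y ^ 2 ^ k) := H.commD _ (Subgroup.mem_top _) _ (Subgroup.mem_top _)
    have h2 : (g * y ^ 2 ^ k) ^ 2 ∈ T₁.comap D₁.subtype := by
      rw [c1.mul_pow]
      exact Subgroup.mul_mem _ hj2 (Subgroup.pow_mem _ (loD lo y hy) 2)
    exact h2

/-- Squares modulo `T`. -/
def sqS (D T : Subgroup G) (hD : ∀ x ∈ D, ∀ y ∈ D, x * y = y * x) : Subgroup G where
  carrier := {h | h ∈ D ∧ ∃ x ∈ D, h * (x ^ 2)⁻¹ ∈ T}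
  mul_mem' := by
    rintro a b ⟨ha, x, hx, hxa⟩ ⟨hb, y, hy, hyb⟩
    refine ⟨D.mul_mem ha hb, x * y, D.mul_mem hx hy, ?_⟩
    have c1 : Commute x y := hD x hx y hy
    have c2 : Commute b (x ^ 2)⁻¹ := hD _ hb _ (D.inv_mem (D.pow_mem hx 2))
    have c3 : Commute (x ^ 2)⁻¹ (y ^ 2)⁻¹ :=
      hD _ (D.inv_mem (D.pow_mem hx 2)) _ (D.inv_mem (D.pow_mem hy 2))
    have e : a * b * ((x * y) ^ 2)⁻¹ = (a * (x ^ 2)⁻¹) * (b * (y ^ 2)⁻¹) := by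
      rw [c1.mul_pow, mul_inv_rev, ← c3.eq, mul_assoc, mul_assoc, ← mul_assoc b, c2.eq, mul_assoc]
    rw [e]
    exact T.mul_mem hxa hyb
  one_mem' := ⟨D.one_mem, 1, D.one_mem, by
    rw [one_pow, inv_one, mul_one]
    exact T.one_mem⟩
  inv_mem' := by
    rintro a ⟨ha, x, hx, hxa⟩
    refine ⟨D.inv_mem ha, x⁻¹, D.inv_mem hx, ?_⟩
    have c2 : Commute a (x ^ 2)⁻¹ := hD _ ha _ (D.inv_mem (D.pow_mem hx 2))
    have e : a⁻¹ * ((x⁻¹) ^ 2)⁻¹ = (a * (x ^ 2)⁻¹)⁻¹ := by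
      rw [c2.mul_inv, inv_pow]
    rw [e]
    exact T.inv_mem hxa

theorem g7 (H : LD D D₁ r k) (hT : CQ D T) (hne : (r '' H36MG.clS D T).Nonempty) :
    ∃ H₁ : Subgroup G₁, H₁ ≤ D₁ ∧ ∃ g ∈ D₁, g ∉ H₁ ∧ (∀ x ∈ D₁, x ∈ H₁ ∨ x * g⁻¹ ∈ H₁) ∧
      ∀ x ∈ D₁, x ∈ r '' H36MG.clS D T ↔ x ∉ H₁ := by
  obtain ⟨_, g, hg, rfl⟩ := hne
  have key : ∀ h ∈ D, r h ∈ r '' H36MG.clS D T ↔ r h ∉ (sqS D T H.comm).map r := by
    intro h hh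
    rw [← g1 H hT hh, H36MG.mem_cl H.p2 H.comm hT]
    constructor
    · rintro ⟨-, h2⟩ ⟨h', ⟨h'D, x, hx, hxT⟩, he⟩
      obtain ⟨y, hy, hyz⟩ := H.ker (h'⁻¹ * h) (by rw [map_mul, map_inv, he, inv_mul_cancel])
      obtain ⟨y', hy', hyy⟩ : ∃ y' ∈ D, y' ^ 2 = h'⁻¹ * h := by
        refine ⟨y ^ 2 ^ (k - 1), D.pow_mem hy _, ?_⟩
        rw [← hyz, ← pow_mul, ← pow_succ]
        congr 2
        have := H.k1
        omega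
      apply h2 (y' * x) (D.mul_mem hy' hx)
      have c1 : Commute y' x := H.comm _ hy' _ hx
      have c2 : Commute h' (x ^ 2)⁻¹ := H.comm _ h'D _ (D.inv_mem (D.pow_mem hx 2))
      have h3 : h * ((y' * x) ^ 2)⁻¹ = h' * (x ^ 2)⁻¹ := by
        rw [c1.mul_pow, hyy, mul_inv_rev, mul_inv_rev, inv_inv]
        have c3 : Commute (x ^ 2)⁻¹ (h⁻¹ * h') := H.comm _ (D.inv_mem (D.pow_mem hx 2)) _
          (D.mul_mem (D.inv_mem hh) h'D)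
        rw [c3.eq, mul_assoc, mul_inv_cancel_left]
      rw [h3]
      exact hxT
    · intro h1
      exact ⟨hh, fun x hx hxT => h1 ⟨h, ⟨hh, x, hx, hxT⟩, rfl⟩⟩
  have hgD : g ∈ D := hg.1
  refine ⟨(sqS D T H.comm).map r, ?_, r g, ?_, (key g hgD).1 ⟨g, hg, rfl⟩, ?_, ?_⟩
  · rintro _ ⟨h, hh, rfl⟩
    rw [← H.map]
    exact ⟨h, hh.1, rfl⟩
  · rw [← H.map]
    exact ⟨g, hgD, rfl⟩
  · intro x hx
    rw [← H.map] at hx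
    obtain ⟨h, hh, rfl⟩ := hx
    obtain ⟨i, hi⟩ := hg.2.2 h hh
    rcases Nat.even_or_odd' i with ⟨j, hj | hj⟩
    · left
      refine ⟨h, ⟨hh, g ^ j, D.pow_mem hgD j, ?_⟩, rfl⟩
      have h1 : h * ((g ^ j) ^ 2)⁻¹ = (g ^ i * h⁻¹)⁻¹ := by
        rw [mul_inv_rev, inv_inv, ← pow_mul, hj, mul_comm j 2]
      rw [h1]
      exact T.inv_mem hi
    · right
      refine ⟨h * g⁻¹, ⟨D.mul_mem hh (D.inv_mem hgD), g ^ j, D.pow_mem hgD j, ?_⟩, by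
        rw [map_mul, map_inv]⟩
      have h1 : h * g⁻¹ * ((g ^ j) ^ 2)⁻¹ = (g ^ i * h⁻¹)⁻¹ := by
        rw [mul_inv_rev, inv_inv, ← pow_mul, hj, mul_assoc, ← mul_inv_rev, ← pow_succ,
          mul_comm j 2]
      rw [h1]
      exact T.inv_mem hi
  · intro x hx
    rw [← H.map] at hx
    obtain ⟨h, hh, rfl⟩ := hx
    exact key h hh

theorem g8 (H : LD D D₁ r k) (hT : CQ D T) (hcyc : ∃ c ∈ D, ∀ y ∈ D, ∃ i : ℕ, y = c ^ i)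
    (hne : (r '' H36MG.clS D T).Nonempty) : r '' H36MG.clS D T = hiS D₁ k := by
  obtain ⟨_, g, hg, rfl⟩ := hne
  obtain ⟨c, hc, hgen⟩ := hcyc
  have hcT : c ∉ T := by
    intro h
    obtain ⟨i, hi⟩ := hgen g hg.1
    apply hg.2.1
    rw [hi]
    exact T.pow_mem h i
  have hcr : c ^ 2 ^ k ∉ r.ker := by
    intro h
    obtain ⟨y, hy, hyn⟩ := H.big1
    obtain ⟨d, hd, rfl⟩ := hy
    obtain ⟨i, hi⟩ := hgen d hd
    apply hyn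
    rw [← map_pow, hi, ← pow_mul, mul_comm i, pow_mul, map_pow, (MonoidHom.mem_ker).1 h, one_pow]
  ext x
  constructor
  · rintro ⟨h, hh, rfl⟩
    obtain ⟨i, hi⟩ := hgen h hh.1
    have hodd : Odd i := by
      rw [← Nat.not_even_iff_odd]
      rintro ⟨j, hj⟩
      apply ((H36MG.mem_cl H.p2 H.comm hT).1 hh).2 (c ^ j) (D.pow_mem hc j)
      rw [hi, hj, ← pow_mul, mul_two, mul_inv_cancel]
      exact T.one_mem
    refine ⟨by rw [← H.map]; exact ⟨h, hh.1, rfl⟩, fun y hy hcon => ?_⟩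
    rw [← H.map] at hy
    obtain ⟨d, hd, rfl⟩ := hy
    obtain ⟨m, hm⟩ := hgen d hd
    apply hcr
    refine H36MG.mem_of_odd_pow H.p2 r.ker (n := (i : ℤ) - 2 * m) ?_ ?_
    · rw [Int.not_even_iff_odd]
      obtain ⟨j, hj⟩ := hodd
      exact ⟨(j : ℤ) - m, by rw [hj]; push_cast; ring⟩
    · have h1 : (c ^ 2 ^ k) ^ ((i : ℤ) - 2 * m) = h ^ 2 ^ k * (((d ^ 2 ^ k) ^ 2))⁻¹ := by
        rw [hi, hm, zpow_sub, ← pow_mul, ← pow_mul, ← pow_mul, zpow_natCast, ← pow_mul]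
        congr 1
        · rw [mul_comm]
        · congr 1
          have h2 : (2 * (m : ℤ)) = ((2 * m : ℕ) : ℤ) := by push_cast; rfl
          rw [h2, zpow_natCast, ← pow_mul]
          congr 1
          ring
      rw [h1, MonoidHom.mem_ker, map_mul, map_inv, map_pow, map_pow, map_pow, hcon, mul_inv_cancel]
  · rintro ⟨hx, hn⟩
    rw [← H.map] at hx
    obtain ⟨h, hh, rfl⟩ := hx
    obtain ⟨i, hi⟩ := hgen h hh
    have hodd : Odd i := by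
      rw [← Nat.not_even_iff_odd]
      rintro ⟨j, hj⟩
      apply hn (r (c ^ j)) (by rw [← H.map]; exact ⟨_, D.pow_mem hc j, rfl⟩)
      rw [hi, hj, ← map_pow, ← map_pow, ← map_pow]
      congr 1
      rw [← pow_mul, ← pow_mul, ← pow_mul]
      congr 1
      ring
    refine ⟨h, (H36MG.mem_cl H.p2 H.comm hT).2 ⟨hh, fun y hy hyT => hcT ?_⟩, rfl⟩
    obtain ⟨m, hm⟩ := hgen y hy
    refine H36MG.mem_of_odd_pow H.p2 T (n := (i : ℤ) - 2 * m) ?_ ?_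
    · rw [Int.not_even_iff_odd]
      obtain ⟨j, hj⟩ := hodd
      exact ⟨(j : ℤ) - m, by rw [hj]; push_cast; ring⟩
    · have h1 : c ^ ((i : ℤ) - 2 * m) = h * (y ^ 2)⁻¹ := by
        rw [hi, hm, zpow_sub, zpow_natCast]
        congr 2
        have h2 : (2 * (m : ℤ)) = ((m * 2 : ℕ) : ℤ) := by push_cast; ring
        rw [h2, zpow_natCast, pow_mul]
      rw [h1]
      exact hyT

end

end H76IN
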