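import Pool.Agent.H36.MG.Gp

/-!
Project MG, infinite case INF (MP_78d38b_nt): group theory of the high indices (helper36, no row).
-/

set_option autoImplicit false
set_option linter.unusedSectionVars false

namespace H36IN

open H36MG

variable {G : Type*} [Group G]

/-- The high type: elements whose `2 ^ k`-th power is not a square of a `2 ^ k`-th power. -/
def hiS (D : Subgroup G) (k : ℕ) : Set G := {h | h ∈ D ∧ ∀ x ∈ D, h ^ 2 ^ k ≠ (x ^ 2 ^ k) ^ 2}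

/-- Proper subgroups of the cyclic group of the `2 ^ k`-th powers consist of squares. -/
theorem pow_sq {D T : Subgroup G} (hp : IsPGroup 2 G) {k : ℕ}
    (hC : ∃ c ∈ D, ∀ y ∈ D, ∃ i : ℕ, y ^ 2 ^ k = (c ^ 2 ^ k) ^ i)
    (hT : ∃ y ∈ D, y ^ 2 ^ k ∉ T) {y : G} (hy : y ∈ D) (hyT : y ^ 2 ^ k ∈ T) :
    ∃ x ∈ D, y ^ 2 ^ k = (x ^ 2 ^ k) ^ 2 := by
  obtain ⟨c, hc, hgen⟩ := hC
  obtain ⟨i, hi⟩ := hgen y hy
  rcases Nat.even_or_odd' i with ⟨j, hj | hj⟩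
  · refine ⟨c ^ j, D.pow_mem hc j, ?_⟩
    rw [hi, hj, ← pow_mul, ← pow_mul, ← pow_mul]
    congr 1
    ring
  · exfalso
    obtain ⟨y₀, hy₀, hy₀T⟩ := hT
    obtain ⟨i₀, hi₀⟩ := hgen y₀ hy₀
    apply hy₀T
    rw [hi₀]
    apply T.pow_mem
    refine mem_of_odd_pow hp T (n := (i : ℤ)) ?_ ?_
    · rw [Int.not_even_iff_odd]
      exact ⟨j, by rw [hj]; push_cast; ring⟩
    · rw [zpow_natCast, ← hi]
      exact hyT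

/-- Multiplication by an element of `T` or by a square does not change the type. -/
theorem cl_mul {D T : Subgroup G} (hp : IsPGroup 2 G) (hD : ∀ x ∈ D, ∀ y ∈ D, x * y = y * x)
    (hcyc : ∃ g ∈ D, ∀ h ∈ D, ∃ i : ℕ, ∃ c ∈ T, h = g ^ i * c) {h y : G} (hh : h ∈ clS D T)
    (hy : y ∈ D) : h * y ^ 2 ∈ clS D T := by
  rw [mem_cl hp hD hcyc] at hh ⊢
  refine ⟨D.mul_mem hh.1 (D.pow_mem hy 2), fun x hx => ?_⟩
  have h1 := hh.2 (y⁻¹ * x) (D.mul_mem (D.inv_mem hy) hx)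
  have h2 : h * y ^ 2 * (x ^ 2)⁻¹ = h * ((y⁻¹ * x) ^ 2)⁻¹ := by
    have c1 : Commute y⁻¹ x := hD _ (D.inv_mem hy) _ hx
    rw [c1.mul_pow, inv_pow, mul_inv_rev, inv_inv, mul_assoc,
      (show Commute (y ^ 2) (x ^ 2)⁻¹ from hD _ (D.pow_mem hy 2) _ (D.inv_mem (D.pow_mem hx 2))).eq]
  rw [h2]
  exact h1

theorem cl_mulT {D T : Subgroup G} (hp : IsPGroup 2 G) (hD : ∀ x ∈ D, ∀ y ∈ D, x * y = y * x)
    (hcyc : ∃ g ∈ D, ∀ h ∈ D, ∃ i : ℕ, ∃ c ∈ T, h = g ^ i * c) {h t : G} (hh : h ∈ clS D T)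
    (ht : t ∈ D) (htT : t ∈ T) : h * t ∈ clS D T := by
  rw [mem_cl hp hD hcyc] at hh ⊢
  refine ⟨D.mul_mem hh.1 ht, fun x hx hcon => hh.2 x hx ?_⟩
  have h2 : h * (x ^ 2)⁻¹ = h * t * (x ^ 2)⁻¹ * t⁻¹ := by
    rw [mul_assoc h t, (show Commute t (x ^ 2)⁻¹ from hD _ ht _ (D.inv_mem (D.pow_mem hx 2))).eq,
      mul_assoc, mul_assoc, mul_inv_cancel, mul_one]
  rw [h2]
  exact T.mul_mem hcon (T.inv_mem htT)

/-- **(a)** For a high index the type does not depend on `T`. -/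
theorem cl_high {D T : Subgroup G} (hp : IsPGroup 2 G) (hD : ∀ x ∈ D, ∀ y ∈ D, x * y = y * x)
    {k : ℕ} (hC : ∃ c ∈ D, ∀ y ∈ D, ∃ i : ℕ, y ^ 2 ^ k = (c ^ 2 ^ k) ^ i)
    (hcyc : ∃ g ∈ D, ∀ h ∈ D, ∃ i : ℕ, ∃ c ∈ T, h = g ^ i * c)
    (hT : ∃ y ∈ D, y ^ 2 ^ k ∉ T) {h : G} :
    h ∈ clS D T ↔ h ∈ D ∧ ∀ x ∈ D, h ^ 2 ^ k ≠ (x ^ 2 ^ k) ^ 2 := by
  have hcom : ∀ x ∈ D, ∀ y ∈ D, Commute x y := fun x hx y hy => hD x hx y hy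
  constructor
  · intro hh
    refine ⟨hh.1, fun x hx hcon => ?_⟩
    have h1 : h * (x⁻¹) ^ 2 ∈ clS D T := cl_mul hp hD hcyc hh (D.inv_mem hx)
    obtain ⟨t, ht⟩ : ∃ t, t = h * (x⁻¹) ^ 2 := ⟨_, rfl⟩
    rw [← ht] at h1
    have ht1 : t ^ 2 ^ k = 1 := by
      have c1 : Commute h ((x⁻¹) ^ 2) := hcom _ hh.1 _ (D.pow_mem (D.inv_mem hx) 2)
      rw [ht, c1.mul_pow, hcon, inv_pow, inv_pow, ← pow_mul, ← pow_mul, mul_comm (2 ^ k) 2,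
        mul_inv_cancel]
    obtain ⟨y, hy, hyT⟩ := hT
    apply hyT
    obtain ⟨i, hi⟩ := h1.2.2 y hy
    have h2 : y ^ 2 ^ k = ((t ^ i * y⁻¹) ^ 2 ^ k)⁻¹ := by
      have c1 : Commute (t ^ i) y⁻¹ := hcom _ (D.pow_mem h1.1 i) _ (D.inv_mem hy)
      rw [c1.mul_pow, ← pow_mul, mul_comm i, pow_mul, ht1, one_pow, one_mul, inv_pow, inv_inv]
    rw [h2]
    exact T.inv_mem (T.pow_mem hi _)
  · rintro ⟨hh, hn⟩
    rw [mem_cl hp hD hcyc]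
    refine ⟨hh, fun x hx hxT => ?_⟩
    have h1 : h * (x ^ 2)⁻¹ ∈ D := D.mul_mem hh (D.inv_mem (D.pow_mem hx 2))
    obtain ⟨x', hx', h2⟩ := pow_sq hp hC hT h1 (T.pow_mem hxT _)
    apply hn (x' * x) (D.mul_mem hx' hx)
    have c1 : Commute h (x ^ 2)⁻¹ := hcom _ hh _ (D.inv_mem (D.pow_mem hx 2))
    have c2 : Commute x' x := hcom _ hx' _ hx
    have c3 : Commute (x' ^ 2 ^ k) (x ^ 2 ^ k) := hcom _ (D.pow_mem hx' _) _ (D.pow_mem hx _)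
    rw [c1.mul_pow] at h2
    rw [c2.mul_pow, c3.mul_pow, ← h2, inv_pow, ← pow_mul, ← pow_mul, mul_comm (2 ^ k) 2, mul_assoc,
      inv_mul_cancel, mul_one]

theorem cl_high' {D T : Subgroup G} (hp : IsPGroup 2 G) (hD : ∀ x ∈ D, ∀ y ∈ D, x * y = y * x)
    {k : ℕ} (hC : ∃ c ∈ D, ∀ y ∈ D, ∃ i : ℕ, y ^ 2 ^ k = (c ^ 2 ^ k) ^ i)
    (hcyc : ∃ g ∈ D, ∀ h ∈ D, ∃ i : ℕ, ∃ c ∈ T, h = g ^ i * c)
    (hT : ∃ y ∈ D, y ^ 2 ^ k ∉ T) : clS D T = hiS D k :=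
  Set.ext fun _ => cl_high hp hD hC hcyc hT

section Layer

variable {G₁ : Type*} [Group G₁] {r : G →* G₁}

/-- **(b1)** Types are unions of fibres. -/
theorem cl_fib {D T : Subgroup G} (hp : IsPGroup 2 G) (hD : ∀ x ∈ D, ∀ y ∈ D, x * y = y * x)
    {k : ℕ} (hk : 1 ≤ k) (hker : ∀ z, r z = 1 → ∃ y ∈ D, y ^ 2 ^ k = z)
    (hcyc : ∃ g ∈ D, ∀ h ∈ D, ∃ i : ℕ, ∃ c ∈ T, h = g ^ i * c) {h : G} :
    h ∈ clS D T ↔ r h ∈ r '' clS D T := by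
  refine ⟨fun hh => ⟨h, hh, rfl⟩, ?_⟩
  rintro ⟨h', hh', he⟩
  obtain ⟨y, hy, hyz⟩ := hker (h'⁻¹ * h) (by rw [map_mul, map_inv, he, inv_mul_cancel])
  have h1 : h = h' * (y ^ 2 ^ (k - 1)) ^ 2 := by
    have h2 : (y ^ 2 ^ (k - 1)) ^ 2 = y ^ 2 ^ k := by
      rw [← pow_mul, ← pow_succ]
      congr 2
      omega
    rw [h2, hyz, mul_inv_cancel_left]
  rw [h1]
  exact cl_mul hp hD hcyc hh' (D.pow_mem hy _)

/-- **(b2)** The high type in a layer. -/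
theorem map_high {D T : Subgroup G} (hp : IsPGroup 2 G) (hD : ∀ x ∈ D, ∀ y ∈ D, x * y = y * x)
    {k : ℕ} (hC : ∃ c ∈ D, ∀ y ∈ D, ∃ i : ℕ, y ^ 2 ^ k = (c ^ 2 ^ k) ^ i)
    (hker : ∀ z, r z = 1 → ∃ y ∈ D, y ^ 2 ^ k = z) (h1 : ∃ y ∈ D.map r, y ^ 2 ^ k ≠ 1)
    (hcyc : ∃ g ∈ D, ∀ h ∈ D, ∃ i : ℕ, ∃ c ∈ T, h = g ^ i * c)
    (hT : ∃ y ∈ D, y ^ 2 ^ k ∉ T) : r '' clS D T = hiS (D.map r) k := by
  have hcom : ∀ x ∈ D, ∀ y ∈ D, Commute x y := fun x hx y hy => hD x hx y hy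
  have h2 : ∃ y ∈ D, y ^ 2 ^ k ∉ r.ker := by
    obtain ⟨_, ⟨y, hy, rfl⟩, h3⟩ := h1
    refine ⟨y, hy, fun h4 => h3 ?_⟩
    rw [← map_pow]
    exact h4
  ext g
  constructor
  · rintro ⟨h, hh, rfl⟩
    obtain ⟨hhD, hn⟩ := (cl_high hp hD hC hcyc hT).1 hh
    refine ⟨⟨h, hhD, rfl⟩, ?_⟩
    rintro _ ⟨x, hx, rfl⟩ hcon
    obtain ⟨y, hy, hyz⟩ := hker (((x ^ 2 ^ k) ^ 2)⁻¹ * h ^ 2 ^ k) (by
      rw [map_mul, map_inv, map_pow, map_pow, map_pow, hcon, inv_mul_cancel])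
    obtain ⟨x', hx', h4⟩ := pow_sq hp hC h2 hy (by
      rw [hyz, MonoidHom.mem_ker, map_mul, map_inv, map_pow, map_pow, map_pow, hcon,
        inv_mul_cancel])
    apply hn (x * x') (D.mul_mem hx hx')
    have c2 : Commute x x' := hcom _ hx _ hx'
    have c3 : Commute (x ^ 2 ^ k) (x' ^ 2 ^ k) := hcom _ (D.pow_mem hx _) _ (D.pow_mem hx' _)
    rw [c2.mul_pow, c3.mul_pow, ← h4, hyz, mul_inv_cancel_left]
  · rintro ⟨⟨h, hh, rfl⟩, hn⟩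
    refine ⟨h, (cl_high hp hD hC hcyc hT).2 ⟨hh, fun x hx hcon => ?_⟩, rfl⟩
    apply hn (r x) ⟨x, hx, rfl⟩
    have h3 := congrArg r hcon
    rw [map_pow, map_pow, map_pow] at h3
    exact h3

/-- **(b3)** Low indices in a layer. -/
theorem low_mem {D T : Subgroup G} {k : ℕ} (hker : ∀ z, r z = 1 → ∃ y ∈ D, y ^ 2 ^ k = z)
    (hT : ∀ y ∈ D, y ^ 2 ^ k ∈ T) {h : G} (hh : h ∈ D) : h ∈ T ↔ r h ∈ (T ⊓ D).map r := by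
  refine ⟨fun h1 => ⟨h, ⟨h1, hh⟩, rfl⟩, ?_⟩
  rintro ⟨h', ⟨h1, -⟩, he⟩
  obtain ⟨y, hy, hyz⟩ := hker (h'⁻¹ * h) (by rw [map_mul, map_inv, he, inv_mul_cancel])
  have h2 : h = h' * (h'⁻¹ * h) := (mul_inv_cancel_left _ _).symm
  rw [h2, ← hyz]
  exact T.mul_mem h1 (hT y hy)

theorem low_cyc {D T : Subgroup G} (r : G →* G₁)
    (hcyc : ∃ g ∈ D, ∀ h ∈ D, ∃ i : ℕ, ∃ c ∈ T, h = g ^ i * c) :
    ∃ g ∈ D.map r, ∀ h ∈ D.map r, ∃ i : ℕ, ∃ c ∈ (T ⊓ D).map r, h = g ^ i * c := by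
  obtain ⟨g, hg, hgen⟩ := hcyc
  refine ⟨r g, ⟨g, hg, rfl⟩, ?_⟩
  rintro _ ⟨h, hh, rfl⟩
  obtain ⟨i, c, hc, he⟩ := hgen h hh
  have hcD : c ∈ D := by
    have h3 := D.mul_mem (D.inv_mem (D.pow_mem hg i)) hh
    rwa [he, inv_mul_cancel_left] at h3
  refine ⟨i, r c, ⟨c, ⟨hc, hcD⟩, rfl⟩, ?_⟩
  rw [he, map_mul, map_pow]

theorem map_low {D T : Subgroup G} {k : ℕ} (hker : ∀ z, r z = 1 → ∃ y ∈ D, y ^ 2 ^ k = z)
    (hT : ∀ y ∈ D, y ^ 2 ^ k ∈ T) : r '' clS D T = clS (D.map r) ((T ⊓ D).map r) := by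
  ext g
  constructor
  · rintro ⟨h, ⟨h1, h2, h3⟩, rfl⟩
    refine ⟨⟨h, h1, rfl⟩, fun h4 => h2 ((low_mem hker hT h1).2 h4), ?_⟩
    rintro _ ⟨y, hy, rfl⟩
    obtain ⟨i, hi⟩ := h3 y hy
    refine ⟨i, h ^ i * y⁻¹, ⟨hi, D.mul_mem (D.pow_mem h1 i) (D.inv_mem hy)⟩, ?_⟩
    rw [map_mul, map_pow, map_inv]
  · rintro ⟨⟨h, h1, rfl⟩, h2, h3⟩
    refine ⟨h, ⟨h1, fun h4 => h2 ((low_mem hker hT h1).1 h4), fun y hy => ?_⟩, rfl⟩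
    obtain ⟨i, hi⟩ := h3 (r y) ⟨y, hy, rfl⟩
    refine ⟨i, (low_mem hker hT (D.mul_mem (D.pow_mem h1 i) (D.inv_mem hy))).2 ?_⟩
    rw [map_mul, map_pow, map_inv]
    exact hi

/-- **(c)** Preimages of the powers of `g₁`. -/
theorem mem_of_zp {D : Subgroup G} {k : ℕ} (hker : ∀ z, r z = 1 → ∃ y ∈ D, y ^ 2 ^ k = z)
    {g₁ : G₁} (hg₁ : g₁ ∈ D.map r) {g : G} (hg : r g ∈ Subgroup.zpowers g₁) : g ∈ D := by
  obtain ⟨d, hd, rfl⟩ := hg₁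
  obtain ⟨n, hn⟩ := Subgroup.mem_zpowers_iff.1 hg
  obtain ⟨y, hy, hyz⟩ := hker ((d ^ n)⁻¹ * g) (by
    rw [map_mul, map_inv, map_zpow, hn, inv_mul_cancel])
  have h2 : g = d ^ n * ((d ^ n)⁻¹ * g) := (mul_inv_cancel_left _ _).symm
  rw [h2, ← hyz]
  exact D.mul_mem (D.zpow_mem hd n) (D.pow_mem hy _)

theorem ker_zp {D : Subgroup G} (hp : IsPGroup 2 G) {k : ℕ}
    (hC : ∃ c ∈ D, ∀ y ∈ D, ∃ i : ℕ, y ^ 2 ^ k = (c ^ 2 ^ k) ^ i)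
    (hker : ∀ z, r z = 1 → ∃ y ∈ D, y ^ 2 ^ k = z) {g₁ : G₁} (hg₁ : g₁ ∈ D.map r)
    (hne : g₁ ^ 2 ^ (k + 1) ≠ 1) {h : G} (hh : r h = g₁) {z : G} (hz : r z = 1) :
    z ∈ Subgroup.zpowers (h ^ 2 ^ (k + 1)) := by
  have hhD : h ∈ D := mem_of_zp hker hg₁ (by rw [hh]; exact Subgroup.mem_zpowers _)
  obtain ⟨c, hc, hgen⟩ := hC
  obtain ⟨y, hy, hyz⟩ := hker z hz
  obtain ⟨a, ha⟩ := hgen y hy
  obtain ⟨b, hb⟩ := hgen (h ^ 2) (D.pow_mem hhD 2)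
  obtain ⟨γ, hγ⟩ : ∃ γ, γ = c ^ 2 ^ k := ⟨_, rfl⟩
  rw [← hγ] at ha hb
  have hb' : h ^ 2 ^ (k + 1) = γ ^ b := by
    rw [← hb, ← pow_mul, ← pow_succ']
  rw [hyz] at ha
  -- two elements of a cyclic two-group
  have key : z ∈ Subgroup.zpowers (γ ^ b) ∨ γ ^ b ∈ Subgroup.zpowers z := by
    obtain ⟨n, hn⟩ := hp γ
    -- compare the two-adic valuations
    by_cases ha0 : a = 0
    · left
      rw [ha, ha0, pow_zero]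
      exact Subgroup.one_mem _
    by_cases hb0 : b = 0
    · right
      rw [hb0, pow_zero]
      exact Subgroup.one_mem _
    obtain ⟨s, a', ha', rfl⟩ := Nat.exists_eq_two_pow_mul_odd ha0
    obtain ⟨t, b', hb'', rfl⟩ := Nat.exists_eq_two_pow_mul_odd hb0
    have hodd : ∀ (m u : ℕ), Odd u → γ ^ 2 ^ m ∈ Subgroup.zpowers (γ ^ (2 ^ m * u)) := by
      intro m u hu
      refine mem_of_odd_pow hp _ (n := (u : ℤ)) ?_ ?_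
      · rw [Int.not_even_iff_odd]
        exact_mod_cast hu
      · rw [zpow_natCast, ← pow_mul]
        exact Subgroup.mem_zpowers _
    rcases le_total s t with hst | hst
    · right
      rw [ha]
      obtain ⟨d, rfl⟩ := Nat.exists_eq_add_of_le hst
      have h3 : γ ^ (2 ^ (s + d) * b') = (γ ^ 2 ^ s) ^ (2 ^ d * b') := by
        rw [← pow_mul]
        congr 1
        rw [pow_add]
        ring
      rw [h3]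
      exact Subgroup.pow_mem _ (hodd s a' ha') _
    · left
      rw [ha]
      obtain ⟨d, rfl⟩ := Nat.exists_eq_add_of_le hst
      have h3 : γ ^ (2 ^ (t + d) * a') = (γ ^ 2 ^ t) ^ (2 ^ d * a') := by
        rw [← pow_mul]
        congr 1
        rw [pow_add]
        ring
      rw [h3]
      exact Subgroup.pow_mem _ (hodd t b' hb'') _
  rcases key with h1 | h1
  · rw [hb']
    exact h1
  · exfalso
    apply hne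
    obtain ⟨n, hn⟩ := Subgroup.mem_zpowers_iff.1 h1
    rw [← hh, ← map_pow, hb', ← hn, map_zpow, hz, one_zpow]

theorem comap_zp {D : Subgroup G} (hp : IsPGroup 2 G) {k : ℕ}
    (hC : ∃ c ∈ D, ∀ y ∈ D, ∃ i : ℕ, y ^ 2 ^ k = (c ^ 2 ^ k) ^ i)
    (hker : ∀ z, r z = 1 → ∃ y ∈ D, y ^ 2 ^ k = z) {g₁ : G₁} (hg₁ : g₁ ∈ D.map r)
    (hne : g₁ ^ 2 ^ (k + 1) ≠ 1) {h : G} (hh : r h = g₁) :
    (Subgroup.zpowers g₁).comap r = Subgroup.zpowers h := by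
  apply le_antisymm
  · intro g hg
    obtain ⟨n, hn⟩ := Subgroup.mem_zpowers_iff.1 (Subgroup.mem_comap.1 hg)
    have h1 := ker_zp hp hC hker hg₁ hne hh (z := (h ^ n)⁻¹ * g) (by
      rw [map_mul, map_inv, map_zpow, hh, hn, inv_mul_cancel])
    have h2 : g = h ^ n * ((h ^ n)⁻¹ * g) := (mul_inv_cancel_left _ _).symm
    rw [h2]
    exact Subgroup.mul_mem _ (Subgroup.zpow_mem_zpowers h n)
      ((Subgroup.zpowers_le.2 (Subgroup.npow_mem_zpowers h _)) h1)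
  · rw [Subgroup.zpowers_le, Subgroup.mem_comap, hh]
    exact Subgroup.mem_zpowers _

theorem comap_zp2 {D : Subgroup G} (hp : IsPGroup 2 G) {k : ℕ}
    (hC : ∃ c ∈ D, ∀ y ∈ D, ∃ i : ℕ, y ^ 2 ^ k = (c ^ 2 ^ k) ^ i)
    (hker : ∀ z, r z = 1 → ∃ y ∈ D, y ^ 2 ^ k = z) {g₁ : G₁} (hg₁ : g₁ ∈ D.map r)
    (hne : g₁ ^ 2 ^ (k + 1) ≠ 1) {h : G} (hh : r h = g₁) :
    (Subgroup.zpowers (g₁ ^ 2)).comap r = Subgroup.zpowers (h ^ 2) := by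
  apply le_antisymm
  · intro g hg
    obtain ⟨n, hn⟩ := Subgroup.mem_zpowers_iff.1 (Subgroup.mem_comap.1 hg)
    have h1 := ker_zp hp hC hker hg₁ hne hh (z := ((h ^ 2) ^ n)⁻¹ * g) (by
      rw [map_mul, map_inv, map_zpow, map_pow, hh, hn, inv_mul_cancel])
    have h2 : g = (h ^ 2) ^ n * (((h ^ 2) ^ n)⁻¹ * g) := (mul_inv_cancel_left _ _).symm
    rw [h2]
    refine Subgroup.mul_mem _ (Subgroup.zpow_mem_zpowers _ n)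
      ((Subgroup.zpowers_le.2 ?_) h1)
    have h3 : h ^ 2 ^ (k + 1) = (h ^ 2) ^ 2 ^ k := by
      rw [← pow_mul, ← pow_succ']
    rw [h3]
    exact Subgroup.npow_mem_zpowers _ _
  · rw [Subgroup.zpowers_le, Subgroup.mem_comap, map_pow, hh]
    exact Subgroup.mem_zpowers _

end Layer

/-! **(d)** Separation (for the group `G₁`, here again called `G`, `D`). -/

/-- Cosets of the `2 ^ k`-th powers contain elements of large order. -/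
theorem exists_big {D : Subgroup G} (hD : ∀ x ∈ D, ∀ y ∈ D, x * y = y * x) {k : ℕ}
    (hbig : ∃ c ∈ D, c ^ 2 ^ (2 * k + 1) ≠ 1) {g : G} (hg : g ∈ D) :
    ∃ y ∈ D, (g * y ^ 2 ^ k) ^ 2 ^ (k + 1) ≠ 1 := by
  obtain ⟨c, hc, hne⟩ := hbig
  by_cases h1 : g ^ 2 ^ (k + 1) = 1
  · refine ⟨c, hc, ?_⟩
    have c1 : Commute g (c ^ 2 ^ k) := hD _ hg _ (D.pow_mem hc _)
    rw [c1.mul_pow, h1, one_mul, ← pow_mul, ← pow_add]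
    have h2 : k + (k + 1) = 2 * k + 1 := by ring
    rw [h2]
    exact hne
  · refine ⟨1, D.one_mem, ?_⟩
    rw [one_pow, mul_one]
    exact h1

/-- **(d1)** -/
theorem low_sep1 {D T T' : Subgroup G} (hp : IsPGroup 2 G) (hD : ∀ x ∈ D, ∀ y ∈ D, x * y = y * x)
    {k : ℕ} (hbig : ∃ c ∈ D, c ^ 2 ^ (2 * k + 1) ≠ 1)
    (hcyc : ∃ g ∈ D, ∀ h ∈ D, ∃ i : ℕ, ∃ c ∈ T, h = g ^ i * c)
    (hcyc' : ∃ g ∈ D, ∀ h ∈ D, ∃ i : ℕ, ∃ c ∈ T', h = g ^ i * c)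
    (hT : ∀ y ∈ D, y ^ 2 ^ k ∈ T) (hT' : ∀ y ∈ D, y ^ 2 ^ k ∈ T')
    (hne : (clS D T).Nonempty) (h : clS D T' ≠ clS D T) :
    ∃ g ∈ clS D T, g ∈ T' ∧ g ^ 2 ^ (k + 1) ≠ 1 := by
  obtain ⟨g, hg, hgT⟩ := cl_sep1 hp hD hcyc hcyc' hne h
  obtain ⟨y, hy, hyn⟩ := exists_big hD hbig hg.1
  exact ⟨g * y ^ 2 ^ k, cl_mulT hp hD hcyc hg (D.pow_mem hy _) (hT y hy),
    T'.mul_mem hgT (hT' y hy), hyn⟩

/-- **(d2)** -/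
theorem low_sep2 {D T T' : Subgroup G} (hp : IsPGroup 2 G) (hD : ∀ x ∈ D, ∀ y ∈ D, x * y = y * x)
    {k : ℕ} (hbig : ∃ c ∈ D, c ^ 2 ^ (2 * k + 1) ≠ 1) (hT' : ∀ y ∈ D, y ^ 2 ^ k ∈ T')
    (h0 : clS D T = ∅) (h : clS D T' ≠ clS D T) :
    ∃ g ∈ D, g ∉ T' ∧ g ^ 2 ∈ T' ∧ g ^ 2 ^ (k + 1) ≠ 1 := by
  obtain ⟨g, hg, hgT, hg2⟩ := cl_sep2 hp h0 h
  obtain ⟨y, hy, hyn⟩ := exists_big hD hbig hg
  refine ⟨g * y ^ 2 ^ k, D.mul_mem hg (D.pow_mem hy _), fun h1 => hgT ?_, ?_, hyn⟩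
  · have h2 := T'.mul_mem h1 (T'.inv_mem (hT' y hy))
    rwa [mul_inv_cancel_right] at h2
  · have c1 : Commute g (y ^ 2 ^ k) := hD _ hg _ (D.pow_mem hy _)
    rw [c1.mul_pow]
    exact T'.mul_mem hg2 (T'.pow_mem (hT' y hy) 2)

/-- Elements of the high type have large order. -/
theorem hi_big {D : Subgroup G} {k : ℕ}
    (hC : ∃ c ∈ D, ∀ y ∈ D, ∃ i : ℕ, y ^ 2 ^ k = (c ^ 2 ^ k) ^ i) (hp : IsPGroup 2 G)
    (hbig : ∃ c ∈ D, c ^ 2 ^ (2 * k + 1) ≠ 1) {g : G} (hg : g ∈ hiS D k) :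
    g ^ 2 ^ (k + 1) ≠ 1 := by
  obtain ⟨c, hc, hgen⟩ := hC
  obtain ⟨y, hy, hyn⟩ := hbig
  obtain ⟨i, hi⟩ := hgen g hg.1
  have hodd : Odd i := by
    rw [← Nat.not_even_iff_odd]
    rintro ⟨j, hj⟩
    apply hg.2 (c ^ j) (D.pow_mem hc j)
    rw [hi, hj, ← pow_mul, ← pow_mul, ← pow_mul]
    congr 1
    ring
  intro h1
  -- the powers `γ ^ 2` are trivial
  have h2 : c ^ 2 ^ k * c ^ 2 ^ k ∈ (⊥ : Subgroup G) := by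
    rw [← sq]
    refine mem_of_odd_pow hp ⊥ (n := (i : ℤ)) ?_ ?_
    · rw [Int.not_even_iff_odd]
      exact_mod_cast hodd
    · rw [Subgroup.mem_bot, zpow_natCast, ← pow_mul, mul_comm 2 i, pow_mul, ← hi, ← pow_mul,
        ← pow_succ]
      exact h1
  rw [Subgroup.mem_bot, ← sq] at h2
  apply hyn
  obtain ⟨j, hj⟩ := hgen y hy
  have h3 : 2 * k + 1 = k + 1 + k := by ring
  rw [h3, pow_add, pow_add, pow_one, mul_assoc, pow_mul, hj, ← pow_mul (c ^ 2 ^ k), mul_comm j,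
    mul_assoc, pow_mul, h2, one_pow]

theorem hi_nonempty {D : Subgroup G} (hp : IsPGroup 2 G) {k : ℕ}
    (hC : ∃ c ∈ D, ∀ y ∈ D, ∃ i : ℕ, y ^ 2 ^ k = (c ^ 2 ^ k) ^ i)
    (h1 : ∃ y ∈ D, y ^ 2 ^ k ≠ 1) : (hiS D k).Nonempty := by
  obtain ⟨c, hc, hgen⟩ := hC
  obtain ⟨y, hy, hyn⟩ := h1
  refine ⟨c, hc, fun x hx hcon => ?_⟩
  obtain ⟨i, hi⟩ := hgen x hx
  rw [hi, ← pow_mul] at hcon
  have h2 : (c ^ 2 ^ k) ^ (2 * (i : ℤ) - 1) = 1 := by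
    have h3 : (c ^ 2 ^ k) ^ (2 * (i : ℤ) - 1) = (c ^ 2 ^ k) ^ (i * 2) * (c ^ 2 ^ k)⁻¹ := by
      rw [← zpow_natCast _ (i * 2), ← zpow_neg_one, ← zpow_add]
      congr 1
      push_cast
      ring
    rw [h3, ← hcon, mul_inv_cancel]
  have h3 := mem_of_odd_pow hp (⊥ : Subgroup G) (n := 2 * (i : ℤ) - 1) (by
    rw [Int.not_even_iff_odd]
    exact ⟨(i : ℤ) - 1, by ring⟩) (Subgroup.mem_bot.2 h2)
  rw [Subgroup.mem_bot] at h3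
  apply hyn
  obtain ⟨j, hj⟩ := hgen y hy
  rw [hj, h3, one_pow]

/-- **(d1')** The high type against a low index of another type. -/
theorem hi_sep {D T' : Subgroup G} (hp : IsPGroup 2 G) (hD : ∀ x ∈ D, ∀ y ∈ D, x * y = y * x)
    {k : ℕ} (hC : ∃ c ∈ D, ∀ y ∈ D, ∃ i : ℕ, y ^ 2 ^ k = (c ^ 2 ^ k) ^ i)
    (hbig : ∃ c ∈ D, c ^ 2 ^ (2 * k + 1) ≠ 1)
    (hcyc' : ∃ g ∈ D, ∀ h ∈ D, ∃ i : ℕ, ∃ c ∈ T', h = g ^ i * c)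
    (h : clS D T' ≠ hiS D k) : ∃ g ∈ hiS D k, g ∈ T' ∧ g ^ 2 ^ (k + 1) ≠ 1 := by
  have hcom : ∀ x ∈ D, ∀ y ∈ D, Commute x y := fun x hx y hy => hD x hx y hy
  have h1 : ∃ y ∈ D, y ^ 2 ^ k ≠ 1 := by
    obtain ⟨c, hc, hcn⟩ := hbig
    refine ⟨c, hc, fun h2 => hcn ?_⟩
    have h3 : 2 * k + 1 = k + (k + 1) := by ring
    rw [h3, pow_add, pow_mul, h2, one_pow]
  suffices hs : ∃ g ∈ hiS D k, g ∈ T' by
    obtain ⟨g, hg, hgT⟩ := hs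
    exact ⟨g, hg, hgT, hi_big hC hp hbig hg⟩
  by_contra hcon
  have hcon' : ∀ g ∈ hiS D k, g ∉ T' := fun g hg hgT => hcon ⟨g, hg, hgT⟩
  obtain ⟨g₀, hg₀⟩ := hi_nonempty hp hC h1
  have hDT : ¬ D ≤ T' := fun h2 => hcon' g₀ hg₀ (h2 hg₀.1)
  -- not of the high type: products
  have hlo : ∀ g ∈ D, g ∉ hiS D k → ∃ x ∈ D, g ^ 2 ^ k = (x ^ 2 ^ k) ^ 2 := by
    intro g hg hgn
    by_contra h2
    exact hgn ⟨hg, fun x hx hx2 => h2 ⟨x, hx, hx2⟩⟩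
  have hT'' : ∀ t ∈ D, t ∈ T' → ∃ x ∈ D, t ^ 2 ^ k = (x ^ 2 ^ k) ^ 2 := fun t ht htT =>
    hlo t ht fun h2 => hcon' t h2 htT
  -- squares modulo `T'` are not of the high type
  have hsq : ∀ g ∈ D, (∃ x ∈ D, g * (x ^ 2)⁻¹ ∈ T') → ∃ x ∈ D, g ^ 2 ^ k = (x ^ 2 ^ k) ^ 2 := by
    rintro g hg ⟨x, hx, hxT⟩
    obtain ⟨x', hx', h2⟩ := hT'' _ (D.mul_mem hg (D.inv_mem (D.pow_mem hx 2))) hxT
    refine ⟨x' * x, D.mul_mem hx' hx, ?_⟩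
    have c1 : Commute g (x ^ 2)⁻¹ := hcom _ hg _ (D.inv_mem (D.pow_mem hx 2))
    have c2 : Commute x' x := hcom _ hx' _ hx
    have c3 : Commute (x' ^ 2 ^ k) (x ^ 2 ^ k) := hcom _ (D.pow_mem hx' _) _ (D.pow_mem hx _)
    rw [c1.mul_pow] at h2
    rw [c2.mul_pow, c3.mul_pow, ← h2, inv_pow, ← pow_mul, ← pow_mul, mul_comm (2 ^ k) 2, mul_assoc,
      inv_mul_cancel, mul_one]
  apply h
  ext g
  rw [mem_cl hp hD hcyc']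
  constructor
  · rintro ⟨hg, hgn⟩
    by_contra hgh
    obtain ⟨x, hx, hgx⟩ := hlo g hg hgh
    -- `g` generates `D` modulo `T'`
    have hg' : g ∈ clS D T' := (mem_cl hp hD hcyc').2 ⟨hg, hgn⟩
    obtain ⟨i, hi⟩ := hg'.2.2 g₀ hg₀.1
    obtain ⟨x', hx', hx2⟩ := hT'' _ (D.mul_mem (D.pow_mem hg i) (D.inv_mem hg₀.1)) hi
    apply hg₀.2 (x ^ i * x'⁻¹) (D.mul_mem (D.pow_mem hx i) (D.inv_mem hx'))
    have c1 : Commute (g ^ i) g₀⁻¹ := hcom _ (D.pow_mem hg i) _ (D.inv_mem hg₀.1)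
    rw [c1.mul_pow, inv_pow] at hx2
    have h2 : g₀ ^ 2 ^ k = ((x' ^ 2 ^ k) ^ 2)⁻¹ * (g ^ i) ^ 2 ^ k := by
      rw [← hx2, mul_inv_rev, inv_inv, inv_mul_cancel_right]
    have c2 : Commute (x ^ i) x'⁻¹ := hcom _ (D.pow_mem hx i) _ (D.inv_mem hx')
    have c3 : Commute ((x ^ i) ^ 2 ^ k) (x'⁻¹ ^ 2 ^ k) :=
      hcom _ (D.pow_mem (D.pow_mem hx i) _) _ (D.pow_mem (D.inv_mem hx') _)
    have c4 : Commute (((x' ^ 2 ^ k) ^ 2)⁻¹) ((g ^ i) ^ 2 ^ k) :=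
      hcom _ (D.inv_mem (D.pow_mem (D.pow_mem hx' _) _)) _ (D.pow_mem (D.pow_mem hg i) _)
    have h4 : (g ^ i) ^ 2 ^ k = (((x ^ i) ^ 2 ^ k)) ^ 2 := by
      rw [← pow_mul g, mul_comm i, pow_mul, hgx, ← pow_mul, ← pow_mul, ← pow_mul, ← pow_mul]
      congr 1
      ring
    rw [h2, c4.eq, c2.mul_pow, c3.mul_pow, h4, inv_pow, inv_pow]
  · rintro hgh
    refine ⟨hgh.1, fun x hx hxT => ?_⟩
    obtain ⟨x', hx', h2⟩ := hsq g hgh.1 ⟨x, hx, hxT⟩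
    exact hgh.2 x' hx' h2

end H36IN
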