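import Pool.Agent.H76.IN.Cn
import Pool.Agent.H30.MG.Co
import Pool.Agent.H88.AB.Fm

/-!
Project INF (MP_78d38b_nt, infinite case of MG): the configuration for all layers (no row).
-/

set_option autoImplicit false
set_option linter.unusedSectionVars false
open scoped Classical

open WithZero NumberField IsDedekindDomain H76PP H36CY H30MG H30CY H76AB H36MX H38RT H76MQ H76MX
open Pool.Agent.H42.PC H88AB H36IN H36MG H73P2
open H38T1 (SC sc)

namespace H76IN.L5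

section Transfer

variable {K N₀ N : Type} [Field K] [NumberField K] [Field N₀] [NumberField N₀] [Field N] [NumberField N]
  [Algebra K N₀] [Algebra N₀ N] [Algebra K N] [IsScalarTower K N₀ N] [IsGalois K N₀] [IsGalois K N]

/-- Transfer of the class from the first layer. -/
theorem isM_of {u : HeightOneSpectrum (𝓞 K)} {w₁ : HeightOneSpectrum (𝓞 N₀)}
    {w₀ : HeightOneSpectrum (𝓞 N)} (h01 : dn N₀ w₀ = w₁) (h0 : dn K w₀ = u)
    (hov : Pool.Agent.H10.Over u w₁) (ho : Pool.Agent.H10.Over u w₀) {δ : Set (N₀ ≃ₐ[K] N₀)}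
    {m : Kv u} (h : RhoO w₁ hov δ m) {S : Set (N ≃ₐ[K] N)}
    (hcl : ∀ h ∈ Dec K w₀, h ∈ S ↔ AlgEquiv.restrictNormalHom N₀ h ∈ δ) : IsM ho S m := by
  subst h01
  subst h0
  obtain ⟨ρ, h0, h1, h2, h3⟩ := h
  have hres : ∀ h ∈ Dec K w₀, AlgEquiv.restrictNormalHom N₀ h ∈ Dec K (dn N₀ w₀) := by
    intro h hh
    rw [← dec_map (N₀ := N₀) w₀]
    exact ⟨h, hh, rfl⟩
  refine ⟨algebraMap N₀ N ρ, ⟨(map_ne_zero _).2 h0, fun h hh hS => ?_, fun h hh hS => ?_⟩,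
    m_up hov h3⟩
  · rw [← res_apply, h1 _ (hres h hh) ((hcl h hh).1 hS), map_neg]
  · rw [← res_apply, h2 _ (hres h hh) fun hd => hS ((hcl h hh).2 hd)]

end Transfer

section Nc

theorem nc_bot {G : Type*} [Group G] : NC (⊥ : Subgroup G) := by
  refine ⟨fun x hx y hy => ?_, fun x hx y => ?_⟩
  · rw [Subgroup.mem_bot.1 hx, Subgroup.mem_bot.1 hy]
  · rw [Subgroup.mem_bot.1 hx, mul_one, mul_inv_cancel]
    exact Subgroup.one_mem _

theorem cyT_zp {G : Type*} [Group G] [Finite G] (h : G) (T : Subgroup G) :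
    CyT (Subgroup.zpowers h) T := by
  refine ⟨h, Subgroup.mem_zpowers h, fun x hx => ?_⟩
  rw [← mem_powers_iff_mem_zpowers] at hx
  obtain ⟨i, hi⟩ := hx
  exact ⟨i, 1, T.one_mem, by rw [mul_one]; exact hi.symm⟩

variable {K F : Type} [Field K] [NumberField K] [Field F] [Algebra K F] {F₁ : IntermediateField K F}
  [NumberField F₁] [IsGalois K F₁] {η : (u : HeightOneSpectrum (𝓞 K)) → SC (Kv u)} {n k : ℕ}

/-- The decomposition groups at a place of the configuration. -/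
theorem nc_z (hdeg : DegOk K F) (hk : n ≤ 2 ^ k)
    (hP : ∀ p : HeightOneSpectrum (𝓞 K), (2 : 𝓞 K) ∈ p.asIdeal → Sp K F p ∨ PlN F₁ η n k p)
    {u : HeightOneSpectrum (𝓞 K)} (hu : (2 : 𝓞 K) ∈ u.asIdeal ∨ u ∈ AuxI F₁ k η n)
    {Q : IntermediateField K F} [NumberField Q] [IsGalois K Q] (hle : F₁ ≤ Q) :
    (∀ W : HeightOneSpectrum (𝓞 Q), dn K W = u → Dec K W = Dc K Q u) ∧ NC (Dc K Q u) := by
  have hsp : Sp K F u → (∀ W : HeightOneSpectrum (𝓞 Q), dn K W = u → Dec K W = Dc K Q u) ∧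
      NC (Dc K Q u) := by
    intro hs
    have h1 : Dc K Q u = ⊥ := sp_dec hs (wc_dn (N := Q) u)
    rw [h1]
    exact ⟨fun W hW => sp_dec hs hW, nc_bot⟩
  have hpl : ∀ p, PlN F₁ η n k p → NC (Dc K Q p) := fun p hp =>
    ⟨(hp.all Q inferInstance).comm', (hp.all Q inferInstance).conj'⟩
  rcases hu with h2 | ⟨-, hr, hs | ⟨p, h2, hp, g₁, hA⟩⟩
  · rcases hP u h2 with hs | hp
    · exact hsp hs
    · exact ⟨fun W hW => (hp.all Q inferInstance).dec hW, hpl u hp⟩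
  · exact hsp hs
  · have h1 := fun (W : HeightOneSpectrum (𝓞 Q)) (hW : dn K W = u) =>
      auxN_dec hdeg hk hp hr hA hle hW
    obtain ⟨h3, h, hh, h4⟩ := h1 _ (wc_dn (N := Q) u)
    refine ⟨fun W hW => ?_, ?_⟩
    · rw [(h1 W hW).1, dc_wc, h3]
    · rw [dc_wc, h4]
      exact (hpl p hp).mono (Subgroup.zpowers_le.2 hh)

/-- The decomposition group is cyclic at the auxiliary places. -/
theorem cyT_z (hdeg : DegOk K F) (hk : n ≤ 2 ^ k)
    {u : HeightOneSpectrum (𝓞 K)} (hu : u ∈ AuxI F₁ k η n)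
    {Q : IntermediateField K F} [NumberField Q] [IsGalois K Q] (hle : F₁ ≤ Q)
    (T : Subgroup (Q ≃ₐ[K] Q)) : CyT (Dc K Q u) T := by
  have hfd : FiniteDimensional K Q := Module.Finite.of_restrictScalars_finite ℚ K Q
  obtain ⟨-, hr, hs | ⟨p, h2, hp, g₁, hA⟩⟩ := hu
  · have h1 : Dc K Q u = ⊥ := sp_dec hs (wc_dn (N := Q) u)
    rw [h1, ← Subgroup.zpowers_one_eq_bot]
    exact cyT_zp 1 T
  · obtain ⟨-, h, -, h4⟩ := auxN_dec hdeg hk hp hr hA hle (wc_dn (N := Q) u)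
    rw [dc_wc, h4]
    exact cyT_zp h T

theorem hp_q (hdeg : DegOk K F) (Q : IntermediateField K F) [NumberField Q] [IsGalois K Q] :
    IsPGroup 2 (Q ≃ₐ[K] Q) := by
  have hfd : FiniteDimensional K Q := Module.Finite.of_restrictScalars_finite ℚ K Q
  obtain ⟨r, hr⟩ := hdeg Q inferInstance
  exact IsPGroup.of_card (n := r) (by rw [IsGalois.card_aut_eq_finrank, hr])

/-- The local classes. -/
theorem loc_ix (hη2 : EtaTwo η) (hηo : EtaOdd η) (hdeg : DegOk K F) (hk1 : 1 ≤ k) (hk : n ≤ 2 ^ k)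
    (hP : ∀ p : HeightOneSpectrum (𝓞 K), (2 : 𝓞 K) ∈ p.asIdeal → Sp K F p ∨ PlN F₁ η n k p)
    {s : ZMod 2} {u : HeightOneSpectrum (𝓞 K)} (hu : (2 : 𝓞 K) ∈ u.asIdeal ∨ u ∈ AuxI F₁ k η n)
    {Q : IntermediateField K F} [hQ1 : NumberField Q] [hQ2 : IsGalois K Q] (hle : F₁ ≤ Q)
    {T : Subgroup (Q ≃ₐ[K] Q)}
    (hcyc : ∀ u : HeightOneSpectrum (𝓞 K), (2 : 𝓞 K) ∈ u.asIdeal → CyT (Dc K Q u) T)
    {M N : Type} [Field M] [NumberField M] [Field N] [NumberField N] [Algebra K M]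
    [Algebra K N] [Algebra M N] [Algebra Q N] [IsScalarTower K M N] [IsScalarTower K Q N]
    [IsGalois K N] {μ : M} {ρ : N} (hρ0 : ρ ≠ 0) (hρ : ρ ^ 2 = algebraMap M N μ)
    {U : Subgroup (N ≃ₐ[K] N)} (hU : U.Normal)
    (hUM : ∀ h ∈ U, ∀ x : M, h (algebraMap M N x) = algebraMap M N x) (hUρ : ∀ h ∈ U, h ρ = ρ)
    (hW : ∀ W : HeightOneSpectrum (𝓞 N), dn K W = u → ((2 : 𝓞 K) ∉ u.asIdeal → ¬ Ram K W) ∧
      (∀ h ∈ Dec K W, AlgEquiv.restrictNormalHom Q h ∈ T ↔ h ∈ U) ∧ DCase W U M ρ)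
    {A B : 𝓞 K} {e : Fin 3 → Kv u}
    (hs : Spl (algebraMap K (Kv u) (A : K)) (algebraMap K (Kv u) (B : K)) e)
    (hL : LpM η s u A B e) :
    LocCl u e μ (xs η s u (⟨Q, hQ1, hQ2, hle, T, hcyc⟩ : Ix F₁)) := by
  obtain ⟨hdec, hNC⟩ := nc_z hdeg hk hP hu hle
  have hp := hp_q hdeg Q
  unfold xs
  by_cases h2 : (2 : 𝓞 K) ∈ u.asIdeal
  · rw [if_pos h2]
    obtain ⟨g0, hg0, hη'⟩ := hη2 u h2
    obtain ⟨hδ, h1, h16⟩ := hL.1 h2
    let _ : Algebra F₁ Q := (IntermediateField.inclusion hle).toRingHom.toAlgebra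
    have _ : IsScalarTower K F₁ Q := IsScalarTower.of_algebraMap_eq fun _ => rfl
    obtain ⟨w₀, hw₀⟩ := exists_above (L := Q) (Wc K F₁ u)
    obtain ⟨W, hWw⟩ := exists_above (L := N) w₀
    have hw₀u : dn K w₀ = u := by
      rw [← H30CY.dn_tower (K := K) (N₀ := F₁) w₀, hw₀, wc_dn]
    have hWu : dn K W = u := by
      rw [← H30CY.dn_tower (K := K) (N₀ := Q) W, hWw, hw₀u]
    obtain ⟨-, hT, hcase⟩ := hW W hWu
    have ho : Pool.Agent.H10.Over u w₀ := H76IN.over_of hw₀u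
    have key : ∀ m : Kv u, (¬ Dec K w₀ ≤ T → IsM ho (clS (Dec K w₀) T) m) →
        LocCl u e μ (if Dec K w₀ ≤ T then sc g0 else sc m) := fun m hm =>
      loc_two hWw hw₀u ho (two_lt_of h2) hs hδ h1 h16 hρ0 hρ hU hUM hUρ hT hcase hg0 hm
    rw [hdec w₀ hw₀u] at key
    by_cases hDT : Dc K Q u ≤ T
    · have h3 := key 1 fun h => absurd hDT h
      rw [if_pos hDT] at h3
      have h4 : ty u (⟨Q, hQ1, hQ2, hle, T, hcyc⟩ : Ix F₁) = ∅ := by
        unfold ty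
        have h5 : clS (Dc K Q u) T = ∅ := cl_empty hDT
        exact (congrArg (fun S => rs hle '' S) h5).trans (Set.image_empty _)
      rw [if_pos h4, hη']
      exact h3
    · rcases hP u h2 with hs' | hpl
      · exfalso
        apply hDT
        rw [show Dc K Q u = ⊥ from sp_dec hs' (wc_dn (N := Q) u)]
        exact bot_le
      · have hLD := ld_of hdeg hk1 hk hpl hle
        have hne : (rs hle '' clS (Dc K Q u) T).Nonempty := by
          rw [Set.nonempty_iff_ne_empty]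
          intro h
          exact hDT ((g2 hLD (hcyc u h2)).1 h)
        obtain ⟨m, hm, he, -⟩ := rho_of hdeg hk1 hk hpl (g7 hLD (hcyc u h2) hne)
        have h3 := key m fun _ => isM_of hw₀ hw₀u _ ho hm fun h _ => g1 hLD (hcyc u h2)
        rw [if_neg hDT] at h3
        have h4 : ty u (⟨Q, hQ1, hQ2, hle, T, hcyc⟩ : Ix F₁) ≠ ∅ := hne.ne_empty
        rw [if_neg h4]
        rw [← he] at h3
        exact h3
  · rw [if_neg h2]
    have hu' := hu.resolve_left h2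
    obtain ⟨h1, hτ, hsig⟩ := hL.2 h2
    obtain ⟨W, hWw⟩ := exists_above (L := N) (Wc K Q u)
    have hWu : dn K W = u := by
      rw [← H30CY.dn_tower (K := K) (N₀ := Q) W, hWw, wc_dn]
    obtain ⟨hunr, hT, hcase⟩ := hW W hWu
    have h3 := loc_odd hWw (wc_dn (N := Q) u) hp hNC.1 (cyT_z hdeg hk hu' hle T) (hunr h2)
      (H30MQ.oddP_of h2) hs h1 hτ (eta_class hηo h2) hsig hρ0 hρ hU hUM hUρ hT hcase
    rcases z2 s with rfl | rfl
    · rw [if_pos rfl, if_pos rfl] at h3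
      rw [zero_smul, add_zero, one_smul]
      exact h3
    · rw [if_neg one_ne_zero, if_neg one_ne_zero] at h3
      rw [one_smul, one_one, zero_smul]
      exact h3

end Nc

section Main

variable {K F : Type} [Field K] [NumberField K] [Field F] [Algebra K F] {F₁ : IntermediateField K F}
  [NumberField F₁] [IsGalois K F₁] {η : (u : HeightOneSpectrum (𝓞 K)) → SC (Kv u)} {n k : ℕ}

/-- **The configuration for all layers.** -/
theorem conf_layer (hη : ∀ u, η u ≠ 0) (hη2 : EtaTwo η) (hηo : EtaOdd η) (hdeg : DegOk K F)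
    (hk1 : 1 ≤ k) (hk : n ≤ 2 ^ k)
    (hP : ∀ p : HeightOneSpectrum (𝓞 K), (2 : 𝓞 K) ∈ p.asIdeal → Sp K F p ∨ PlN F₁ η n k p)
    {C : CfgX K} (hC : C.Ok) {s : HeightOneSpectrum (𝓞 K) → ZMod 2}
    (hZ : ∀ v ∈ C.Z, ((2 : 𝓞 K) ∈ v.asIdeal ∧ s v = 0) ∨ v ∈ AuxI F₁ k η n)
    (hR : ∀ v, H30ZO.RamF K F v → v ∈ C.S)
    (M : IntermediateField K F) [hM1 : NumberField M] [hM2 : IsGalois K M] (hle : F₁ ≤ M) :
    Conf M C (fun u => LpM η (s u) u) (fun u (a : Ix F₁) => xs η (s u) u a) := by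
  have hZ' : ∀ u ∈ C.Z, (2 : 𝓞 K) ∈ u.asIdeal ∨ u ∈ AuxI F₁ k η n := fun u hu =>
    (hZ u hu).imp_left And.left
  have hram : ∀ V : HeightOneSpectrum (𝓞 M), ¬ H30ZO.RamF K F (dn K V) → ¬ Ram K V :=
    fun V hV h => hV ⟨M, hM1, V, rfl, h⟩
  have hunZ : ∀ V : HeightOneSpectrum (𝓞 M), dn K V ∈ C.Z → (2 : 𝓞 K) ∉ (dn K V).asIdeal →
      ¬ Ram K V := fun V hV h2 => hram V ((hZ' _ hV).resolve_left h2).2.1
  have hunS : ∀ V : HeightOneSpectrum (𝓞 M), dn K V ∉ C.S → ¬ Ram K V :=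
    fun V hV => hram V fun h => hV (hR _ h)
  refine ⟨hC, hunS, ?_, ?_, ?_⟩
  · -- splitting
    intro N _ _ h2 v hv
    obtain ⟨hdec, -⟩ := nc_z (Q := M) hdeg hk hP (hZ' v hv) hle
    have hcase : Dc K M v = ⊥ ∨ ∃ p : HeightOneSpectrum (𝓞 K), (2 : 𝓞 K) ∈ p.asIdeal ∧
        Dc K M v ≤ Dc K M p := by
      rcases hZ' v hv with h | ⟨-, hr, hs | ⟨p, hp2, hp, g₁, hA⟩⟩
      · exact Or.inr ⟨v, h, le_rfl⟩
      · exact Or.inl (sp_dec hs (wc_dn (N := M) v))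
      · obtain ⟨-, h, hh, h4⟩ := auxN_dec hdeg hk hp hr hA hle (wc_dn (N := M) v)
        refine Or.inr ⟨p, hp2, ?_⟩
        rw [dc_wc, h4]
        exact Subgroup.zpowers_le.2 hh
    have h3 := dec_map (K := K) (N₀ := N) (N := M) (Wc K M v)
    have h4 : Dec K (dn N (Wc K M v)) = ⊥ := by
      rw [← h3]
      rcases hcase with hb | ⟨p, hp2, hb⟩
      · rw [← dc_wc, hb, Subgroup.map_bot]
      · rw [eq_bot_iff]
        have h5 := dec_map (K := K) (N₀ := N) (N := M) (Wc K M p)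
        obtain ⟨j, hj⟩ := h2 p hp2
        have h6 : Dec K (dn N (Wc K M p)) = ⊥ :=
          dec_split j hj (by rw [H30CY.dn_tower, wc_dn])
        rw [← h6, ← h5]
        exact Subgroup.map_mono hb
    have h7 := sp_of_bot h4
    rwa [H30CY.dn_tower, wc_dn] at h7
  · -- elements of `K`
    rintro d hd ⟨ρ, hρ⟩
    have hd0 : (d : K) ≠ 0 := fun h => hd (RingOfIntegers.coe_eq_zero_iff.1 h)
    have hρ' : ρ ^ 2 = algebraMap K M (d : K) := by rw [hρ, sq]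
    have hρ0 : ρ ≠ 0 := by
      rintro rfl
      rw [mul_zero] at hρ
      exact hd0 ((map_eq_zero _).1 hρ)
    have hres : ∀ (V : HeightOneSpectrum (𝓞 M)), ∀ h ∈ Dec K V,
        AlgEquiv.restrictNormalHom M h ∈ stR K ρ ↔ h ∈ stR K ρ := fun V h _ => by
      rw [res_self]
    have hcy : ∀ u : HeightOneSpectrum (𝓞 K), (2 : 𝓞 K) ∈ u.asIdeal →
        CyT (Dc K M u) (stR K ρ) := by
      intro u _
      have h1 := cyT_of (F := M) (hres (Wc K M u)) (stR_dcase hρ' (Wc K M u))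
      rwa [H30MG.dn_self] at h1
    refine ⟨⟨M, hM1, hM2, hle, stR K ρ, hcy⟩, fun u hu A B e he hL => ?_⟩
    exact loc_ix hη2 hηo hdeg hk1 hk hP (hZ' u hu) hle hcy (M := K) (N := M) hρ0 hρ'
      (stR_normal hρ') (fun h _ x => h.commutes x) (fun h hh => hh)
      (fun W hW => ⟨fun h2 => hunZ W (by rw [hW]; exact hu) (by rw [hW]; exact h2), hres W,
        stR_dcase hρ' W⟩) he hL
  · -- the pairs
    intro L0 N _ _ _ _ _ _ _ _ _ _ _ _ hr hgen hsp U hU z _ hz2 _ hmono M' _ hM' ρ hρ0 hρU hρz μ hμ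
    obtain ⟨r', hr'⟩ := hr
    have key : ∀ u ∈ C.Z, ∀ V : HeightOneSpectrum (𝓞 N), dn K V = u →
        ((2 : 𝓞 K) ∉ u.asIdeal → ¬ Ram K V) ∧
        (∀ h ∈ Dec K V, AlgEquiv.restrictNormalHom M h ∈ TU L0 M U ↔ h ∈ U) ∧
          DCase V U M' ρ := by
      intro u hu V hKV
      have hspV : Sp K L0 (dn K V) := by
        rw [hKV]
        exact hsp u hu
      have hMV : dn K (dn M V) = u := by
        rw [H30CY.dn_tower, hKV]
      refine ⟨fun h2 => ?_, fun h hh => mem_TU hgen hspV hh, ?_⟩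
      · refine H36AB.unram_comp hgen ?_ ?_
        · apply split_unram
          rw [H30CY.dn_tower]
          exact hspV
        · exact hunZ _ (by rw [hMV]; exact hu) (by rw [hMV]; exact h2)
      · refine dcase_of hr' hz2 hmono (nc_up (F := M) hgen hspV ?_) (fun x => (hM' _).1 x.2) hρU hρz
        obtain ⟨hdec, hNC⟩ := nc_z (Q := M) hdeg hk hP (hZ' u hu) hle
        rw [hdec _ hMV]
        exact hNC
    have hcy : ∀ u : HeightOneSpectrum (𝓞 K), (2 : 𝓞 K) ∈ u.asIdeal →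
        CyT (Dc K M u) (TU L0 M U) := by
      intro p h2
      obtain ⟨V, hV⟩ := exists_above (L := N) (Wc K M p)
      have hKV : dn K V = p := by
        rw [← H30CY.dn_tower (K := K) (N₀ := M) V, hV, wc_dn]
      obtain ⟨-, h3, h4⟩ := key p (hC.mem2 p h2) V hKV
      have h5 := cyT_of (F := M) h3 h4
      rwa [hV] at h5
    refine ⟨⟨M, hM1, hM2, hle, TU L0 M U, hcy⟩, fun u hu A B e he hL => ?_⟩
    exact loc_ix hη2 hηo hdeg hk1 hk hP (hZ' u hu) hle hcy (M := M') (N := N) hρ0 hμ.symm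
      hU (fun h hh x => ((hM' _).1 x.2).1 h hh) hρU (fun W hW => key u hu W hW) he hL

end Main

end H76IN.L5
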